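import Mathlib
import Pool.Agent.H193.OZ.MainT
import Pool.Agent.H193.OZ.Main2
import Pool.Agent.H82.OZ_L
import Pool.Agent.H399.OZ_J
import Pool.Agent.H345.OZ_P
import Pool.Agent.H787.OZ_R
import Pool.Agent.H193.OZ.SepQ
import Pool.Agent.H193.OZ.Bridge

/-!
# Continuum many property (T) factors, each with infinitely many groups

There are continuum many factors of type II one, pairwise not isomorphic, such that each of them is
the von Neumann algebra of infinitely many ICC groups with property (T), pairwise not virtually
isomorphic (and even with isomorphic group algebras).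

The groups are `M_n ⋊ EL_3(R_θ)`, `n` a natural number and `θ` a 0-1-sequence; `R_θ` is the ring
generated over the field with eight elements by a weighted left shift (with the weight `c ≠ 0, 1` at
the place `4 ^ j` if `θ j = 1`, and with the weight 1 otherwise) and the right shift, `M_n` is an
abelian group of exponent four, generated by `R_θ³` and by elements `u(a)`, `a ∈ R_θ³`, whose squares
are `u(a)² = a p_n` for an idempotent `p_n`; modulo `R_θ³` the map `u` is the universal quadratic
map.  For fixed `θ` the groups have the same group algebra.  For different `θ` the factors are distinguished by the argument of Connes and Ozawa: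
all groups `EL_3(R_θ)` are quotients of one group with property (T), and the kernels have infinite
images in the other quotients; therefore an isomorphism class contains only countably many of the
factors.  The argument is carried out for arbitrary isomorphisms of algebras with involution.
-/

set_option autoImplicit false

namespace Pool.Agent.Results.MP_434e52_an.ContinuumManyFactors

open scoped ComplexConjugate
open Pool.Agent Pool.Agent.Y276.Rig

/-- `S` and `T` are the same operator on `ℓ²(G)` -/
def Same {G : Type} (S T : (G → ℂ) → (G → ℂ)) : Prop := ∀ f, SqSum f → S f = T f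

/-- the inner product of `ℓ²(G)` -/
noncomputable def inn {G : Type} (f g : G → ℂ) : ℂ := ∑' x, f x * conj (g x)

/-- the operator `S` on `ℓ²(G)` is the adjoint of `T` -/
def Adjoint {G : Type} (T S : (G → ℂ) → (G → ℂ)) : Prop :=
  ∀ f g, SqSum f → SqSum g → inn (T f) g = inn f (S g)

/-- `L(G)` and `L(H)` are isomorphic as algebras with involution: there is a bijection `Φ` of
`L(G)` onto `L(H)` (operators which are the same on `ℓ²` are identified) which preserves sums,
products, multiples and adjoints -/
def Isomorphic (G H : Type) [Group G] [Group H] : Prop :=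
  ∃ Φ : ((G → ℂ) → (G → ℂ)) → ((H → ℂ) → (H → ℂ)),
    (∀ T, InVN T → InVN (Φ T)) ∧
    (∀ S, InVN S → ∃ T, InVN T ∧ Same (Φ T) S) ∧
    ∀ S T, InVN S → InVN T →
      (Same S T ↔ Same (Φ S) (Φ T)) ∧
      Same (Φ (fun f => S f + T f)) (fun f => Φ S f + Φ T f) ∧
      Same (Φ (fun f => S (T f))) (fun f => Φ S (Φ T f)) ∧
      (∀ c : ℂ, Same (Φ (fun f => c • S f)) (fun f => c • Φ S f)) ∧
      (Adjoint S T → Adjoint (Φ S) (Φ T))

/-- There is a family of countable ICC groups `G i n` with property (T), `i` in a set of the
cardinality of the continuum and `n` a natural number, such that, for fixed `i`, all groups `G i n`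
have isomorphic complex group algebras (as algebras with involution and trace) and the same von
Neumann algebra (even up to conjugation by a unitary operator) and are pairwise not virtually
isomorphic; and such that, for `i ≠ j`, the von Neumann algebras of `G i n` and `G j m` are never
isomorphic. -/
theorem result :
    ∃ (ι : Type) (G : ι → ℕ → Type) (_ : ∀ i n, Group (G i n)),
      Cardinal.mk ι = Cardinal.continuum ∧
      (∀ i n, Countable (G i n) ∧ IsIcc (G i n) ∧ PropertyT (G i n)) ∧
      (∀ i n m, SameGroupAlgebra (G i n) (G i m) ∧ SameVN (G i n) (G i m)) ∧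
      (∀ i n m, n ≠ m → ¬ VirtuallyIsomorphic (G i n) (G i m)) ∧
      ∀ i j n m, i ≠ j → ¬ Isomorphic (G i n) (G j m) := by
  have : CharP (GaloisField 2 3) 2 := inferInstance
  have : Finite (GaloisField 2 3) := inferInstance
  have hcard : Nat.card (GaloisField 2 3) = 8 := by
    rw [GaloisField.card 2 3 (by norm_num)]; norm_num
  have : Fintype (GaloisField 2 3) := Fintype.ofFinite _
  obtain ⟨ι, G, hG, h1, h2, h3, h4, h5⟩ := H193.OZ.final
    (H193.OZ.s_main H82.OZL.s_cl H82.OZL.s_L H399.OZJ.s_J H345.OZP.s_P H345.OZP.s_I
      H193.OZ.Q7.s_Q)
    H193.OZ.Q7.s_D H193.OZ.Q7.s_F H787.OZ.s_R H82.OZL.s_sym (GaloisField 2 3) hcard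
  exact ⟨ι, G, hG, h1, h2, h3, h4, fun i j n m hij h =>
    h5 i j n m hij (H193.OZ.BR6.s_BR (G i n) (G j m) h)⟩

end Pool.Agent.Results.MP_434e52_an.ContinuumManyFactors
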