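import Mathlib
import Pool.Agent.H193.UV.Fin
import Pool.Agent.H484.UV_MU
import Pool.Agent.H66.UV_A
import Pool.Agent.H276.UV_B
import Pool.Agent.H47.UV_W

/-!
# Every countable group is a subgroup of property (T) groups which are not virtually W*-superrigid

Every countable group `P` can be embedded in countable ICC groups `G 0`, `G 1`, `G 2`, … with
property (T) which all have the same group algebra and the same von Neumann algebra, but which are
pairwise not virtually isomorphic. So there is no restriction on the subgroups of a property (T)
group for which virtual W*-superrigidity fails.

The groups are `M_n ⋊ EL_3(R)`, where `M_n` is an abelian group of exponent four, generated by `R³`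
and by elements `u(a)`, `a ∈ R³`, whose squares are `u(a)² = a p_n` for an idempotent `p_n` (modulo
`R³` the map `u` is the universal quadratic map), and `R` is a ring with two generators over the field with eight elements, made for
`P`: it is generated by the right shift and a left shift with operator weights `1 + N`, `N ^ 2 = 0`,
at the places `4 ^ j`; it contains all matrix units and a copy of a group `P'` of permutations with
`P ≤ [P', P']`, and has an augmentation.  `P` is embedded by the matrices `diag([a, b], 1, 1)`.
-/

set_option autoImplicit false

namespace Pool.Agent.Results.MP_434e52_an.EveryCountableSubgroup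

open Pool.Agent Pool.Agent.Y276.Rig

/-- Every countable group `P` is isomorphic to a subgroup of each member of a sequence of countable
ICC groups `G n` with property (T), which all have isomorphic complex group algebras (as algebras
with involution and trace) and the same von Neumann algebra (even up to conjugation by a unitary
operator), and which are pairwise not virtually isomorphic. -/
theorem result (P : Type) [Group P] [Countable P] :
    ∃ (G : ℕ → Type) (_ : ∀ n, Group (G n)),
      (∀ n, Countable (G n) ∧ IsIcc (G n) ∧ PropertyT (G n) ∧
        ∃ φ : P →* G n, Function.Injective φ) ∧
      (∀ n m, SameGroupAlgebra (G n) (G m) ∧ SameVN (G n) (G m)) ∧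
      ∀ n m, n ≠ m → ¬ VirtuallyIsomorphic (G n) (G m) := by
  have : CharP (GaloisField 2 3) 2 := inferInstance
  have : Finite (GaloisField 2 3) := inferInstance
  have hcard : Nat.card (GaloisField 2 3) = 8 := by
    rw [GaloisField.card 2 3 (by norm_num)]; norm_num
  have : Fintype (GaloisField 2 3) := Fintype.ofFinite _
  exact H193.UV.final H484.UVMU.s_MU H66.UV_A.s_A H276.UVB.s_B H47.UVW.s_W H47.UVW.s_P
    (GaloisField 2 3) hcard P

end Pool.Agent.Results.MP_434e52_an.EveryCountableSubgroup
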