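import Mathlib
import Pool.Agent.H193.RF.Main
import Pool.Agent.H962.RF_A
import Pool.Agent.H387.RF_BC
import Pool.Agent.H323.RF_D1
import Pool.Agent.H384.RF_D2
import Pool.Agent.H384.RF_F1
import Pool.Agent.H356.RF.F2
import Pool.Agent.H323.RF_G
import Pool.Agent.H588.RF_FG

/-!
# Infinitely many residually finite property (T) groups with the same factor

There is a sequence of countable groups which

* are finitely generated and residually finite,
* are ICC (so all group von Neumann algebras are factors of type II one),
* have Kazhdan's property (T),
* have isomorphic complex group algebras (as algebras with involution and trace),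
* have isomorphic group von Neumann algebras, even by conjugation with a unitary operator,
* are pairwise not virtually isomorphic.

The groups are `M_n ⋊ EL_3(R)` over the polynomial ring `R = F_8[X][Y]`; `M_n` is an abelian
group of exponent four, generated by `R^3` and by elements `u(a)`, `a ∈ R^3`, whose squares are
`u(a)^2 = Y^n a`; modulo `R^3` the map `u` is the universal quadratic map on `R^3`.  The groups are told apart by an invariant under finite index subgroups: the length of
the longest chain of certain invariant subgroups between squares and the elements of order two.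
-/

set_option autoImplicit false

namespace Pool.Agent.Results.MP_434e52_an.ResiduallyFiniteGroups

open Pool.Agent Pool.Agent.Y276.Rig Pool.Agent.H193.RF

/-- There is a sequence of finitely generated residually finite ICC groups with property (T),
which all have isomorphic complex group algebras (as algebras with involution and trace) and
isomorphic group von Neumann algebras, and which are pairwise not virtually isomorphic. -/
theorem result :
    ∃ (G : ℕ → Type) (_ : ∀ n, Group (G n)),
      (∀ n, Group.FG (G n) ∧ ResFin (G n) ∧ IsIcc (G n) ∧ PropertyT (G n)) ∧
      (∀ n m, SameGroupAlgebra (G n) (G m) ∧ SameVN (G n) (G m)) ∧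
      ∀ n m, n ≠ m → ¬ VirtuallyIsomorphic (G n) (G m) := by
  have : CharP (GaloisField 2 3) 2 := inferInstance
  have : Finite (GaloisField 2 3) := inferInstance
  have hcard : Nat.card (GaloisField 2 3) = 8 := by
    rw [GaloisField.card 2 3 (by norm_num)]; norm_num
  have : Fintype (GaloisField 2 3) := Fintype.ofFinite _
  obtain ⟨G, _, h1, h2, h3⟩ := main_fg (k := GaloisField 2 3) Pool.Agent.H588.RFFG.s_FG hcard
    Pool.Agent.H962.RFA.s_A Pool.Agent.H387.RFBC.s_B
    Pool.Agent.H387.RFBC.s_C Pool.Agent.H323.RF.s_D1 Pool.Agent.H384.RFD2.s_D2
    Pool.Agent.H384.RFF1.s_F1 Pool.Agent.H356.RF.s_F2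
    (Pool.Agent.H323.RF.s_G Pool.Agent.H356.RF.s_G0)
  exact ⟨G, inferInstance, h1, h2, h3⟩

end Pool.Agent.Results.MP_434e52_an.ResiduallyFiniteGroups
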